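import Mathlib

/-!
# Kernel computations for the strict partition function: definitions
-/

set_option autoImplicit false

namespace Pool.Agent.X40.SQ

/-- call by value: `fo v b = b v` -/
def fo (v : ℕ) (b : ℕ → Bool) : Bool :=
  Nat.rec (motive := fun _ => Bool) (b 0) (fun n _ => b (Nat.succ n)) v

/-- call by value: `fn v b = b v` -/
def fn (v : ℕ) (b : ℕ → ℕ) : ℕ :=
  Nat.rec (motive := fun _ => ℕ) (b 0) (fun n _ => b (Nat.succ n)) v

lemma fo_eq (v : ℕ) (b : ℕ → Bool) : fo v b = b v := by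
  cases v <;> rfl

lemma fn_eq (v : ℕ) (b : ℕ → ℕ) : fn v b = b v := by
  cases v <;> rfl

/-- the exponents `j (6 j + 1)` -/
def al (j : ℕ) : ℕ := Nat.mul j (Nat.add (Nat.mul 6 j) 1)

/-- binary splitting for the truncated Euler series at `2 ^ c`, relative to the exponent `al j` -/
def bs (c N : ℕ) : ℕ → ℕ → ℕ
  | 0, j => Nat.sub
      (Nat.add 1 (Nat.shiftLeft 1 (Nat.mul c (Nat.add (Nat.mul 10 j) 5))))
      (Nat.add (Nat.shiftLeft 1 (Nat.mul c (Nat.add (Nat.mul 4 j) 1)))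
        (Nat.shiftLeft 1 (Nat.mul c (Nat.add (Nat.mul 6 j) 2))))
  | L + 1, j =>
    bif Nat.ble N (al (Nat.add j (Nat.pow 2 L))) then bs c N L j
    else Nat.add (bs c N L j)
      (Nat.shiftLeft (bs c N L (Nat.add j (Nat.pow 2 L)))
        (Nat.mul c (Nat.sub (al (Nat.add j (Nat.pow 2 L))) (al j))))

/-- `2 ^ n - 1` -/
def mask (n : ℕ) : ℕ := Nat.sub (Nat.shiftLeft 1 n) 1

/-- the value of Euler's series at `2 ^ c` modulo `2 ^ (c * N)` -/
def EV (c N L : ℕ) : ℕ := Nat.land (bs c N L 0) (mask (Nat.mul c N))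

/-- Newton iteration for the inverse of `E` modulo powers of `2 ^ c` -/
def newton (E c N : ℕ) : ℕ → ℕ → ℕ
  | 0, V => V
  | l + 1, V =>
    fn (Nat.mul c (Nat.add (Nat.div N (Nat.pow 2 l)) 1)) fun n =>
    fn (Nat.land (Nat.mul V (Nat.sub (Nat.add (Nat.shiftLeft 1 n) 2)
      (Nat.land (Nat.mul (Nat.land E (mask n)) V) (mask n)))) (mask n)) fun V' =>
    newton E c N l V'

/-- recursive splitting of `B` in base `2 ^ w`, the leaf test is `P` -/
def chk (P : ℕ → ℕ → Bool) (w l : ℕ) : ℕ → ℕ → Bool :=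
  Nat.rec (motive := fun _ => ℕ → ℕ → Bool) P
    (fun l ih B i =>
      Bool.rec (motive := fun _ => Bool) false
        (ih (Nat.shiftRight B (Nat.mul w (Nat.pow 2 l))) (Nat.add i (Nat.pow 2 l)))
        (ih (Nat.land B (mask (Nat.mul w (Nat.pow 2 l)))) i)) l

/-- the values of Euler's series at `2 ^ 1360` and `2 ^ 2720` and the quotient -/
def EN : ℕ := EV 1360 267498 8
def RN : ℕ := EV 2720 133749 8
def BN : ℕ := fn EN fun E => fn (newton E 1360 267498 19 1) fun V =>
  Nat.land (Nat.mul RN V) (mask (Nat.mul 1360 267498))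

end Pool.Agent.X40.SQ
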