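import Pool.Agent.X40.SQ.Series2

/-!
# Reading off the strict partition function from a Kronecker substitution
-/

set_option autoImplicit false

namespace Pool.Agent.X40.SQ

open Finset

/-- the right hand side of the functional equation -/
noncomputable def r (n : ℕ) : ℤ := if 2 ∣ n then e (n / 2) else 0

lemma abs_r_le (n : ℕ) : |r n| ≤ 1 := by
  unfold r
  split_ifs
  · exact abs_e_le _
  · simp

lemma rec_q (n : ℕ) : (∑ k ∈ range n, (q k : ℤ) * e (n - k)) + q n = r n := by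
  have h := conv_eq n
  rw [Finset.Nat.sum_antidiagonal_eq_sum_range_succ (fun i j => (q i : ℤ) * e j) n,
    sum_range_succ, Nat.sub_self, e_zero, mul_one] at h
  exact h

lemma q_le (n b : ℕ) (h : ∀ k < n, q k ≤ b) : q n ≤ 1 + n * b := by
  have h1 := rec_q n
  have h2 : |∑ k ∈ range n, (q k : ℤ) * e (n - k)| ≤ n * b := by
    calc |∑ k ∈ range n, (q k : ℤ) * e (n - k)| ≤ ∑ k ∈ range n, |(q k : ℤ) * e (n - k)| :=
          abs_sum_le_sum_abs _ _
      _ ≤ ∑ k ∈ range n, (b : ℤ) := by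
          apply sum_le_sum
          intro k hk
          rw [abs_mul]
          have h3 : |(q k : ℤ)| ≤ b := by
            rw [abs_of_nonneg (by positivity)]
            exact_mod_cast h k (mem_range.mp hk)
          calc |(q k : ℤ)| * |e (n - k)| ≤ b * 1 :=
                mul_le_mul h3 (abs_e_le _) (abs_nonneg _) (by positivity)
            _ = b := mul_one _
      _ = n * b := by simp
  have h4 := abs_r_le n
  rw [abs_le] at h2 h4
  zify
  linarith [h2.1, h4.2]

lemma sum_dg (x B N : ℕ) : ∑ i ∈ range N, B / x ^ i % x * x ^ i = B % x ^ N := by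
  induction N with
  | zero => simp [Nat.mod_one]
  | succ N ih =>
    rw [sum_range_succ, ih, Nat.mod_pow_succ]
    ring

lemma dvd_formal (N : ℕ) (x : ℤ) : x ^ N ∣ (∑ i ∈ range N, (q i : ℤ) * x ^ i) *
    (∑ i ∈ range N, e i * x ^ i) - ∑ i ∈ range N, r i * x ^ i := by
  have h1 : (Polynomial.X : Polynomial ℤ) ^ N ∣
      (∑ i ∈ range N, Polynomial.C (q i : ℤ) * Polynomial.X ^ i) *
      (∑ i ∈ range N, Polynomial.C (e i) * Polynomial.X ^ i) -
      ∑ i ∈ range N, Polynomial.C (r i) * Polynomial.X ^ i := by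
    rw [Polynomial.X_pow_dvd_iff]
    intro d hd
    have hc : ∀ (f : ℕ → ℤ) (i : ℕ), i < N →
        (∑ i ∈ range N, Polynomial.C (f i) * Polynomial.X ^ i : Polynomial ℤ).coeff i = f i := by
      intro f i hi
      rw [Polynomial.finsetSum_coeff]
      simp only [Polynomial.coeff_C_mul, Polynomial.coeff_X_pow]
      simp [hi]
    rw [Polynomial.coeff_sub, Polynomial.coeff_mul, hc r d hd, sub_eq_zero, r, ← conv_eq]
    refine sum_congr rfl fun p hp => ?_
    have hp' := mem_antidiagonal.mp hp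
    rw [hc (fun i => (q i : ℤ)) p.1 (by omega), hc e p.2 (by omega)]
  obtain ⟨s, hs⟩ := h1
  refine ⟨s.eval x, ?_⟩
  have h2 := congrArg (Polynomial.eval x) hs
  simpa [Polynomial.eval_finsetSum] using h2

lemma isCoprime_E (N : ℕ) (x : ℤ) (hN : 0 < N) : IsCoprime (x ^ N) (∑ i ∈ range N, e i * x ^ i) := by
  apply IsCoprime.pow_left
  obtain ⟨M, rfl⟩ : ∃ M, N = M + 1 := ⟨N - 1, by omega⟩
  rw [sum_range_succ', e_zero]
  refine ⟨-∑ i ∈ range M, e (i + 1) * x ^ i, 1, ?_⟩
  have h : ∑ k ∈ range M, e (k + 1) * x ^ (k + 1) = x * ∑ i ∈ range M, e (i + 1) * x ^ i := by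
    rw [mul_sum]
    exact sum_congr rfl fun i _ => by ring
  rw [h]
  ring

theorem digits_eq (x N B b : ℕ) (hN : 0 < N) (hx : 1 + N * b < x)
    (hid : (x : ℤ) ^ N ∣ (B : ℤ) * (∑ i ∈ range N, e i * (x : ℤ) ^ i) - ∑ i ∈ range N, r i * (x : ℤ) ^ i)
    (hb : ∀ i < N, B / x ^ i % x ≤ b) : ∀ n < N, q n = B / x ^ n % x := by
  have h1 : (x : ℤ) ^ N ∣ ∑ i ∈ range N, (((B / x ^ i % x : ℕ) : ℤ) - q i) * (x : ℤ) ^ i := by
    apply (isCoprime_E N x hN).dvd_of_dvd_mul_right
    have h2 := dvd_formal N (x : ℤ)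
    have h3 : (x : ℤ) ^ N ∣ (B : ℤ) - ((B % x ^ N : ℕ) : ℤ) := by
      refine ⟨((B / x ^ N : ℕ) : ℤ), ?_⟩
      have h4 : ((B % x ^ N : ℕ) : ℤ) + (x ^ N * (B / x ^ N) : ℕ) = (B : ℤ) := by
        exact_mod_cast Nat.mod_add_div B (x ^ N)
      push_cast at h4 ⊢
      linarith
    have h5 := dvd_sub (dvd_sub hid h2) (h3.mul_right (∑ i ∈ range N, e i * (x : ℤ) ^ i))
    convert! h5 using 1
    rw [← sum_dg]
    push_cast
    simp only [sub_mul, sum_sub_distrib]
    ring
  intro n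
  induction n using Nat.strong_induction_on with
  | _ n ih =>
    intro hn
    have h2 : (∑ i ∈ range N, (((B / x ^ i % x : ℕ) : ℤ) - q i) * (x : ℤ) ^ i)
        = ∑ i ∈ Ico n N, (((B / x ^ i % x : ℕ) : ℤ) - q i) * (x : ℤ) ^ i := by
      rw [range_eq_Ico, ← sum_Ico_consecutive _ (Nat.zero_le n) hn.le]
      rw [add_eq_right]
      apply sum_eq_zero
      intro i hi
      rw [mem_Ico] at hi
      rw [ih i hi.2 (by omega)]
      simp
    rw [h2, sum_eq_sum_Ico_succ_bot hn] at h1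
    have h3 : (x : ℤ) ^ (n + 1) ∣ ∑ i ∈ Ico (n + 1) N, (((B / x ^ i % x : ℕ) : ℤ) - q i) * (x : ℤ) ^ i := by
      apply dvd_sum
      intro i hi
      rw [mem_Ico] at hi
      exact (pow_dvd_pow _ hi.1).mul_left _
    have h4 : (x : ℤ) ^ (n + 1) ∣ (((B / x ^ n % x : ℕ) : ℤ) - q n) * (x : ℤ) ^ n := by
      have h5 := dvd_sub ((pow_dvd_pow (x : ℤ) (by omega : n + 1 ≤ N)).trans h1) h3
      convert! h5 using 1
      ring
    have hx0 : (x : ℤ) ≠ 0 := by
      have : 0 < x := by omega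
      exact_mod_cast this.ne'
    have h6 : (x : ℤ) ∣ ((B / x ^ n % x : ℕ) : ℤ) - q n := by
      rw [pow_succ', mul_dvd_mul_iff_right (pow_ne_zero n hx0)] at h4
      exact h4
    have h7 : q n ≤ 1 + n * b := by
      apply q_le
      intro k hk
      rw [ih k hk (by omega)]
      exact hb k (by omega)
    have h8 := hb n hn
    have h9 : n * b ≤ N * b := Nat.mul_le_mul_right _ hn.le
    have h10 : b ≤ N * b := Nat.le_mul_of_pos_left _ hN
    have h11 : |((B / x ^ n % x : ℕ) : ℤ) - q n| < x := by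
      clear h6 h4 h3 h2 h1 ih hid hb
      generalize B / x ^ n % x = D at *
      generalize q n = Q at *
      generalize n * b = u at *
      generalize N * b = v at *
      rw [abs_lt]
      constructor <;> omega
    have h12 := Int.eq_zero_of_abs_lt_dvd h6 h11
    have h13 : ((B / x ^ n % x : ℕ) : ℤ) = q n := by linarith
    exact_mod_cast h13.symm

lemma sum_r (M : ℕ) (x : ℤ) : ∑ i ∈ range (2 * M), r i * x ^ i = ∑ i ∈ range M, e i * (x ^ 2) ^ i := by
  induction M with
  | zero => simp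
  | succ M ih =>
    rw [show 2 * (M + 1) = 2 * M + 1 + 1 by ring, sum_range_succ, sum_range_succ, ih, sum_range_succ]
    have h1 : r (2 * M) = e M := by simp [r]
    have h2 : r (2 * M + 1) = 0 := by
      rw [r, if_neg (by omega)]
    rw [h1, h2, pow_mul]
    ring

end Pool.Agent.X40.SQ
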