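import Pool.Agent.X40.SQ.Defs

/-!
# The leaf test
-/

set_option autoImplicit false

namespace Pool.Agent.X40.SQ

/-- the primes below 521 -/
def prl : List ℕ := [2, 3, 5, 7, 11, 13, 17, 19, 23, 29, 31, 37, 41, 43, 47, 53, 59, 61, 67, 71, 73, 79, 83, 89, 97, 101, 103, 107, 109, 113, 127, 131, 137, 139, 149, 151, 157, 163, 167, 173, 179, 181, 191, 193, 197, 199, 211, 223, 227, 229, 233, 239, 241, 251, 257, 263, 269, 271, 277, 281, 283, 293, 307, 311, 313, 317, 331, 337, 347, 349, 353, 359, 367, 373, 379, 383, 389, 397, 401, 409, 419, 421, 431, 433, 439, 443, 449, 457, 461, 463, 467, 479, 487, 491, 499, 503, 509]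

/-- the product of the primes below 521 -/
def PR : ℕ := 31964081287196888554640742530273949712805599189441373009521636182430667982828077742788853029807931798207106885718293402541861369758591699412090677759187666930105491469725350718941073722934985042092154205321144030

/-- the product of the primes below 521 and of some further primes -/
def PR2 : ℕ := 38716565261498770638697047028323727320081690234137414829333403902770634101506830077347795423950435343158270449832348504002610809114363756720695811396268965798059693217114575695256571793915829702405902142009606422363220511715808474392842322247905689203207330800015539236130758860505759947162701705486656344784621730936030290066586540928141746430630474998261959305292841685435211314481189802501343398051072191539571277440063992442293563797268077396255731286373770653962646157997786075838590867938258014278286343402274903217976639003539450524864098253987468564947504928495273438102705902708063226173466181262491351125004019938026065420016926801565817831372514651550873329990524681305937532573747328101624907727672645234473773268364776356373012595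79164588388424449089631921091441960773482207241943313698520773692173132491281735785582848937316553287060699822218055579750826758196706823981989869792785276957860682430304361504964469339537678485057178355898055003380994773249068836846312125268412773423943699824410373780357297804320704383480044999238700495202980745820634250241600084515619971291374880941666173093182419444784114764255108794894090957324034135127888469373561545041257090570227284763236837288154735627329334540451954077729834409986473007541019843529611707464485254949926789562733265904053698212432836227132482697529536593463481254040125064827586582056862331215457700452610645858703806759710212473457225240301528674497308377848775603279952845458429319762301498858251770807711835377379901000022033748408272642072561277146837020498939594384521688944078440630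

/-- bit mask of the special multiples of six -/
def SP : ℕ :=
  (Nat.add (Nat.add (Nat.add (Nat.add (Nat.add (Nat.add (Nat.add (Nat.add (Nat.add (Nat.add (Nat.add (Nat.add (Nat.add (Nat.add (Nat.add (Nat.add (Nat.add (Nat.add (Nat.add (Nat.add (Nat.add (Nat.add (Nat.add (Nat.add (Nat.add (Nat.add (Nat.add 0 (Nat.shiftLeft 1 1)) (Nat.shiftLeft 1 3)) (Nat.shiftLeft 1 7)) (Nat.shiftLeft 1 12)) (Nat.shiftLeft 1 17)) (Nat.shiftLeft 1 45)) (Nat.shiftLeft 1 47)) (Nat.shiftLeft 1 52)) (Nat.shiftLeft 1 103)) (Nat.shiftLeft 1 172)) (Nat.shiftLeft 1 177)) (Nat.shiftLeft 1 220)) (Nat.shiftLeft 1 325)) (Nat.shiftLeft 1 347)) (Nat.shiftLeft 1 588)) (Nat.shiftLeft 1 1225)) (Nat.shiftLeft 1 1248)) (Nat.shiftLeft 1 1722)) (Nat.shiftLeft 1 2523)) (Nat.shiftLeft 1 2898)) (Nat.shiftLeft 1 3600)) (Nat.shiftLeft 1 6673)) (Nat.shiftLeft 1 7450)) (Nat.shiftLeft 1 22487)) (Nat.shiftLeft 1 26043)) (Nat.shiftLeft 1 31318)) (Nat.shiftLeft 1 40618))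

/-- `true` implies that `x` is divisible by some `p < x` in the list -/
def tr (x : ℕ) (l : List ℕ) : Bool :=
  List.rec (motive := fun _ => Bool) false
    (fun p _ ih => Bool.rec (motive := fun _ => Bool) ih (Nat.blt p x) (Nat.beq (Nat.mod x p) 0)) l

/-- third step of `comp` -/
def comp3 (x g : ℕ) : Bool := Bool.rec (motive := fun _ => Bool) false (tr x prl) (Nat.beq g x)

/-- second step of `comp` -/
def comp2 (x g : ℕ) : Bool :=
  Bool.rec (motive := fun _ => Bool) false
    (Bool.rec (motive := fun _ => Bool) true (comp3 x g) (Nat.ble x g)) (Nat.ble 2 g)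

/-- `true` implies that `x` is not prime -/
def comp (x : ℕ) : Bool :=
  Bool.rec (motive := fun _ => Bool) true (fo (Nat.gcd x PR) (comp2 x)) (Nat.ble 2 x)

/-- Fermat test to base `2`, left to right -/
def frm (Q e l : ℕ) : ℕ → Bool :=
  Nat.rec (motive := fun _ => ℕ → Bool)
    (fun r => Bool.rec (motive := fun _ => Bool) true false (Nat.beq r 1))
  (fun l ih r =>
    fo (Nat.mod (Nat.mul (Nat.pow r 16) (Nat.pow 2 (Nat.land (Nat.shiftRight e (Nat.mul 4 l)) 15))) Q) ih) l

/-- third step of `qt` -/
def qt3 (q Q : ℕ) : Bool :=
  Bool.rec (motive := fun _ => Bool) false (frm Q q (Nat.succ (Nat.div (Nat.log2 q) 4)) 1) (Nat.ble 3 Q)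

/-- second step of `qt` -/
def qt2 (q Q g : ℕ) : Bool :=
  Bool.rec (motive := fun _ => Bool) (qt3 q Q)
    (Bool.rec (motive := fun _ => Bool) true (qt3 q Q) (Nat.ble Q g)) (Nat.ble 2 g)

/-- first step of `qt` -/
def qt1 (q Q : ℕ) : Bool := fo (Nat.gcd Q PR2) (qt2 q Q)

/-- `true` implies that `q + 1` is not prime -/
def qt (q : ℕ) : Bool := fo (Nat.succ q) (qt1 q)

/-- is `6 i` special? -/
def sp (i : ℕ) : Bool := Nat.beq (Nat.land (Nat.shiftRight SP i) 1) 1

/-- third step of `tst` -/
def tst3 (i q : ℕ) : Bool := Bool.rec (motive := fun _ => Bool) (qt q) true (sp i)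

/-- second step of `tst` -/
def tst2 (i q : ℕ) : Bool :=
  Bool.rec (motive := fun _ => Bool) (tst3 i q) true (comp (Nat.add (Nat.mul 6 i) 1))

/-- `true` implies that `6 i` is special or one of `6 i - 1`, `6 i + 1`, `q + 1` is not prime -/
def tst (i q : ℕ) : Bool :=
  Bool.rec (motive := fun _ => Bool) (tst2 i q) true (comp (Nat.sub (Nat.mul 6 i) 1))

/-- the bits `1340, …, 1359` of each of six digits in base `2 ^ 1360` -/
def BM : ℕ := Nat.mul (Nat.shiftLeft (mask 20) 1340)
  (Nat.add 1 (Nat.add (Nat.shiftLeft 1 1360) (Nat.add (Nat.shiftLeft 1 2720)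
    (Nat.add (Nat.shiftLeft 1 4080) (Nat.add (Nat.shiftLeft 1 5440) (Nat.shiftLeft 1 6800))))))

/-- third step of the leaf test -/
def leaf3 (i b : ℕ) : Bool :=
  Bool.rec (motive := fun _ => Bool) false (tst i (Nat.land b (mask 1360))) (Nat.beq (Nat.land b BM) 0)

/-- second step of the leaf test -/
def leaf2 (b i : ℕ) : Bool :=
  Bool.rec (motive := fun _ => Bool) (fo b (leaf3 i)) true (Nat.ble 44583 i)

/-- the leaf test -/
def leaf (b i : ℕ) : Bool := fo i (leaf2 b)

/-- the functional equation modulo `2 ^ (c N)` -/
def idc (c N B E R : ℕ) : Bool := Nat.beq (Nat.land (Nat.mul B E) (mask (Nat.mul c N))) R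

/-- part `j` of the check -/
def part (j B : ℕ) : Bool :=
  chk leaf 8160 14
    (Nat.land (Nat.shiftRight B (Nat.mul j (Nat.mul 8160 16384))) (mask (Nat.mul 8160 16384)))
    (Nat.mul j 16384)

/-- the whole check of `B` -/
def whole (E R B : ℕ) : Bool :=
  Bool.rec (motive := fun _ => Bool) false
    (Bool.rec (motive := fun _ => Bool) false
      (Bool.rec (motive := fun _ => Bool) false (part 2 B) (part 1 B)) (part 0 B))
    (idc 1360 267498 B E R)

end Pool.Agent.X40.SQ
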