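import Pool.Agent.X40.SQ.Tot

/-!
# Kernel check of totients, chunks 0-10
-/

set_option autoImplicit false

namespace Pool.Agent.X40.SQ

set_option maxRecDepth 10000 in
theorem tt_0 : rg (prt 267497) 11 (Nat.mul 0 2048) = true := by decide +kernel

set_option maxRecDepth 10000 in
theorem tt_1 : rg (prt 267497) 11 (Nat.mul 1 2048) = true := by decide +kernel

set_option maxRecDepth 10000 in
theorem tt_2 : rg (prt 267497) 11 (Nat.mul 2 2048) = true := by decide +kernel

set_option maxRecDepth 10000 in
theorem tt_3 : rg (prt 267497) 11 (Nat.mul 3 2048) = true := by decide +kernel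

set_option maxRecDepth 10000 in
theorem tt_4 : rg (prt 267497) 11 (Nat.mul 4 2048) = true := by decide +kernel

set_option maxRecDepth 10000 in
theorem tt_5 : rg (prt 267497) 11 (Nat.mul 5 2048) = true := by decide +kernel

set_option maxRecDepth 10000 in
theorem tt_6 : rg (prt 267497) 11 (Nat.mul 6 2048) = true := by decide +kernel

set_option maxRecDepth 10000 in
theorem tt_7 : rg (prt 267497) 11 (Nat.mul 7 2048) = true := by decide +kernel

set_option maxRecDepth 10000 in
theorem tt_8 : rg (prt 267497) 11 (Nat.mul 8 2048) = true := by decide +kernel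

set_option maxRecDepth 10000 in
theorem tt_9 : rg (prt 267497) 11 (Nat.mul 9 2048) = true := by decide +kernel

set_option maxRecDepth 10000 in
theorem tt_10 : rg (prt 267497) 11 (Nat.mul 10 2048) = true := by decide +kernel

end Pool.Agent.X40.SQ
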