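import Pool.Agent.X40.SQ.Tot

/-!
# Kernel check of totients, chunks 11-21
-/

set_option autoImplicit false

namespace Pool.Agent.X40.SQ

set_option maxRecDepth 10000 in
theorem tt_11 : rg (prt 267497) 11 (Nat.mul 11 2048) = true := by decide +kernel

set_option maxRecDepth 10000 in
theorem tt_12 : rg (prt 267497) 11 (Nat.mul 12 2048) = true := by decide +kernel

set_option maxRecDepth 10000 in
theorem tt_13 : rg (prt 267497) 11 (Nat.mul 13 2048) = true := by decide +kernel

set_option maxRecDepth 10000 in
theorem tt_14 : rg (prt 267497) 11 (Nat.mul 14 2048) = true := by decide +kernel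

set_option maxRecDepth 10000 in
theorem tt_15 : rg (prt 267497) 11 (Nat.mul 15 2048) = true := by decide +kernel

set_option maxRecDepth 10000 in
theorem tt_16 : rg (prt 267497) 11 (Nat.mul 16 2048) = true := by decide +kernel

set_option maxRecDepth 10000 in
theorem tt_17 : rg (prt 267497) 11 (Nat.mul 17 2048) = true := by decide +kernel

set_option maxRecDepth 10000 in
theorem tt_18 : rg (prt 267497) 11 (Nat.mul 18 2048) = true := by decide +kernel

set_option maxRecDepth 10000 in
theorem tt_19 : rg (prt 267497) 11 (Nat.mul 19 2048) = true := by decide +kernel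

set_option maxRecDepth 10000 in
theorem tt_20 : rg (prt 267497) 11 (Nat.mul 20 2048) = true := by decide +kernel

set_option maxRecDepth 10000 in
theorem tt_21 : rg (prt 267497) 11 (Nat.mul 21 2048) = true := by decide +kernel

end Pool.Agent.X40.SQ
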