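import Pool.Agent.X40.SQ.Tot

/-!
# Kernel check of totients, chunks 22-32
-/

set_option autoImplicit false

namespace Pool.Agent.X40.SQ

set_option maxRecDepth 10000 in
theorem tt_22 : rg (prt 267497) 11 (Nat.mul 22 2048) = true := by decide +kernel

set_option maxRecDepth 10000 in
theorem tt_23 : rg (prt 267497) 11 (Nat.mul 23 2048) = true := by decide +kernel

set_option maxRecDepth 10000 in
theorem tt_24 : rg (prt 267497) 11 (Nat.mul 24 2048) = true := by decide +kernel

set_option maxRecDepth 10000 in
theorem tt_25 : rg (prt 267497) 11 (Nat.mul 25 2048) = true := by decide +kernel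

set_option maxRecDepth 10000 in
theorem tt_26 : rg (prt 267497) 11 (Nat.mul 26 2048) = true := by decide +kernel

set_option maxRecDepth 10000 in
theorem tt_27 : rg (prt 267497) 11 (Nat.mul 27 2048) = true := by decide +kernel

set_option maxRecDepth 10000 in
theorem tt_28 : rg (prt 267497) 11 (Nat.mul 28 2048) = true := by decide +kernel

set_option maxRecDepth 10000 in
theorem tt_29 : rg (prt 267497) 11 (Nat.mul 29 2048) = true := by decide +kernel

set_option maxRecDepth 10000 in
theorem tt_30 : rg (prt 267497) 11 (Nat.mul 30 2048) = true := by decide +kernel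

set_option maxRecDepth 10000 in
theorem tt_31 : rg (prt 267497) 11 (Nat.mul 31 2048) = true := by decide +kernel

set_option maxRecDepth 10000 in
theorem tt_32 : rg (prt 267497) 11 (Nat.mul 32 2048) = true := by decide +kernel

end Pool.Agent.X40.SQ
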