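import Pool.Agent.X40.SQ.Tot

/-!
# Kernel check of totients, chunks 33-43
-/

set_option autoImplicit false

namespace Pool.Agent.X40.SQ

set_option maxRecDepth 10000 in
theorem tt_33 : rg (prt 267497) 11 (Nat.mul 33 2048) = true := by decide +kernel

set_option maxRecDepth 10000 in
theorem tt_34 : rg (prt 267497) 11 (Nat.mul 34 2048) = true := by decide +kernel

set_option maxRecDepth 10000 in
theorem tt_35 : rg (prt 267497) 11 (Nat.mul 35 2048) = true := by decide +kernel

set_option maxRecDepth 10000 in
theorem tt_36 : rg (prt 267497) 11 (Nat.mul 36 2048) = true := by decide +kernel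

set_option maxRecDepth 10000 in
theorem tt_37 : rg (prt 267497) 11 (Nat.mul 37 2048) = true := by decide +kernel

set_option maxRecDepth 10000 in
theorem tt_38 : rg (prt 267497) 11 (Nat.mul 38 2048) = true := by decide +kernel

set_option maxRecDepth 10000 in
theorem tt_39 : rg (prt 267497) 11 (Nat.mul 39 2048) = true := by decide +kernel

set_option maxRecDepth 10000 in
theorem tt_40 : rg (prt 267497) 11 (Nat.mul 40 2048) = true := by decide +kernel

set_option maxRecDepth 10000 in
theorem tt_41 : rg (prt 267497) 11 (Nat.mul 41 2048) = true := by decide +kernel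

set_option maxRecDepth 10000 in
theorem tt_42 : rg (prt 267497) 11 (Nat.mul 42 2048) = true := by decide +kernel

set_option maxRecDepth 10000 in
theorem tt_43 : rg (prt 267497) 11 (Nat.mul 43 2048) = true := by decide +kernel

end Pool.Agent.X40.SQ
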