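import Pool.Agent.X40.SQ.Tot

/-!
# Kernel check of totients, chunks 44-54
-/

set_option autoImplicit false

namespace Pool.Agent.X40.SQ

set_option maxRecDepth 10000 in
theorem tt_44 : rg (prt 267497) 11 (Nat.mul 44 2048) = true := by decide +kernel

set_option maxRecDepth 10000 in
theorem tt_45 : rg (prt 267497) 11 (Nat.mul 45 2048) = true := by decide +kernel

set_option maxRecDepth 10000 in
theorem tt_46 : rg (prt 267497) 11 (Nat.mul 46 2048) = true := by decide +kernel

set_option maxRecDepth 10000 in
theorem tt_47 : rg (prt 267497) 11 (Nat.mul 47 2048) = true := by decide +kernel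

set_option maxRecDepth 10000 in
theorem tt_48 : rg (prt 267497) 11 (Nat.mul 48 2048) = true := by decide +kernel

set_option maxRecDepth 10000 in
theorem tt_49 : rg (prt 267497) 11 (Nat.mul 49 2048) = true := by decide +kernel

set_option maxRecDepth 10000 in
theorem tt_50 : rg (prt 267497) 11 (Nat.mul 50 2048) = true := by decide +kernel

set_option maxRecDepth 10000 in
theorem tt_51 : rg (prt 267497) 11 (Nat.mul 51 2048) = true := by decide +kernel

set_option maxRecDepth 10000 in
theorem tt_52 : rg (prt 267497) 11 (Nat.mul 52 2048) = true := by decide +kernel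

set_option maxRecDepth 10000 in
theorem tt_53 : rg (prt 267497) 11 (Nat.mul 53 2048) = true := by decide +kernel

set_option maxRecDepth 10000 in
theorem tt_54 : rg (prt 267497) 11 (Nat.mul 54 2048) = true := by decide +kernel

end Pool.Agent.X40.SQ
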