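import Pool.Agent.X40.SQ.Tot

/-!
# Kernel check of totients, chunks 55-65
-/

set_option autoImplicit false

namespace Pool.Agent.X40.SQ

set_option maxRecDepth 10000 in
theorem tt_55 : rg (prt 267497) 11 (Nat.mul 55 2048) = true := by decide +kernel

set_option maxRecDepth 10000 in
theorem tt_56 : rg (prt 267497) 11 (Nat.mul 56 2048) = true := by decide +kernel

set_option maxRecDepth 10000 in
theorem tt_57 : rg (prt 267497) 11 (Nat.mul 57 2048) = true := by decide +kernel

set_option maxRecDepth 10000 in
theorem tt_58 : rg (prt 267497) 11 (Nat.mul 58 2048) = true := by decide +kernel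

set_option maxRecDepth 10000 in
theorem tt_59 : rg (prt 267497) 11 (Nat.mul 59 2048) = true := by decide +kernel

set_option maxRecDepth 10000 in
theorem tt_60 : rg (prt 267497) 11 (Nat.mul 60 2048) = true := by decide +kernel

set_option maxRecDepth 10000 in
theorem tt_61 : rg (prt 267497) 11 (Nat.mul 61 2048) = true := by decide +kernel

set_option maxRecDepth 10000 in
theorem tt_62 : rg (prt 267497) 11 (Nat.mul 62 2048) = true := by decide +kernel

set_option maxRecDepth 10000 in
theorem tt_63 : rg (prt 267497) 11 (Nat.mul 63 2048) = true := by decide +kernel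

set_option maxRecDepth 10000 in
theorem tt_64 : rg (prt 267497) 11 (Nat.mul 64 2048) = true := by decide +kernel

set_option maxRecDepth 10000 in
theorem tt_65 : rg (prt 267497) 11 (Nat.mul 65 2048) = true := by decide +kernel

end Pool.Agent.X40.SQ
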