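import Pool.Agent.X40.SQ.Kron
import Pool.Agent.X40.SQ.Leaf

/-!
# Soundness of the leaf test and of the recursive splitting
-/

set_option autoImplicit false

namespace Pool.Agent.X40.SQ

open Finset

lemma beq_true {a b : ℕ} (h : Nat.beq a b = true) : a = b := Nat.eq_of_beq_eq_true h

lemma blt_true {a b : ℕ} (h : Nat.blt a b = true) : a < b := by
  rw [Nat.blt_eq] at h
  exact h

lemma rec_and {x y : Bool} (h : (Bool.rec (motive := fun _ => Bool) false y x : Bool) = true) :
    x = true ∧ y = true := by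
  cases x with
  | false => exact absurd h Bool.false_ne_true
  | true => exact ⟨rfl, h⟩

lemma rec_or {x y : Bool} (h : (Bool.rec (motive := fun _ => Bool) y true x : Bool) = true) :
    x = true ∨ y = true := by
  cases x with
  | false => exact Or.inr h
  | true => exact Or.inl rfl

lemma tr_spec (x : ℕ) (l : List ℕ) (hl : ∀ p ∈ l, p ≠ 1) (h : tr x l = true) : ¬ x.Prime := by
  induction l with
  | nil => exact absurd h Bool.false_ne_true
  | cons p l ih =>
    have h0 : (Bool.rec (motive := fun _ => Bool) (tr x l) (Nat.blt p x) (Nat.beq (Nat.mod x p) 0)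
      : Bool) = true := h
    cases hc : Nat.beq (Nat.mod x p) 0 with
    | true =>
      rw [hc] at h0
      have h1 : x % p = 0 := beq_true hc
      have h2 := blt_true h0
      intro hp
      rcases (Nat.dvd_prime hp).mp (Nat.dvd_of_mod_eq_zero h1) with h3 | h3
      · exact hl p (by simp) h3
      · omega
    | false =>
      rw [hc] at h0
      exact ih (fun p hp => hl p (List.mem_cons_of_mem _ hp)) h0

lemma prl_ne : ∀ p ∈ prl, p ≠ 1 := by decide +kernel

lemma not_prime_of_gcd (x P : ℕ) (h1 : 2 ≤ Nat.gcd x P) (h2 : ¬ x ≤ Nat.gcd x P) : ¬ x.Prime := by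
  intro hp
  rcases (Nat.dvd_prime hp).mp (Nat.gcd_dvd_left x P) with h3 | h3 <;> omega

lemma comp_spec (x : ℕ) (h : comp x = true) : ¬ x.Prime := by
  unfold comp at h
  cases hc : Nat.ble 2 x with
  | false =>
    intro hp
    have h1 : Nat.ble 2 x = true := Nat.ble_eq.mpr hp.two_le
    rw [hc] at h1
    exact absurd h1 Bool.false_ne_true
  | true =>
    rw [hc] at h
    change fo (Nat.gcd x PR) (comp2 x) = true at h
    rw [fo_eq, comp2] at h
    obtain ⟨h1, h2⟩ := rec_and h
    have h1' : 2 ≤ Nat.gcd x PR := Nat.le_of_ble_eq_true h1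
    cases hc2 : Nat.ble x (Nat.gcd x PR) with
    | false =>
      apply not_prime_of_gcd x PR h1'
      intro h3
      rw [Nat.ble_eq.mpr h3] at hc2
      exact absurd hc2 (by decide)
    | true =>
      rw [hc2] at h2
      change comp3 x (Nat.gcd x PR) = true at h2
      rw [comp3] at h2
      exact tr_spec x prl prl_ne (rec_and h2).2

lemma frm_spec (Q e l : ℕ) (hQ : 0 < Q) : ∀ r < Q, frm Q e l r = true →
    (r ^ (16 ^ l) * 2 ^ (e % 16 ^ l)) % Q ≠ 1 := by
  induction l with
  | zero =>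
    intro r hr h
    have h0 : (Bool.rec (motive := fun _ => Bool) true false (Nat.beq r 1) : Bool) = true := h
    simp only [pow_zero, pow_one, Nat.mod_one, mul_one]
    rw [Nat.mod_eq_of_lt hr]
    intro h1
    rw [h1] at h0
    exact absurd h0 Bool.false_ne_true
  | succ l ih =>
    intro r hr h
    have h0 : fo ((r ^ 16 * 2 ^ ((e >>> (4 * l)) &&& 15)) % Q) (frm Q e l) = true := h
    rw [fo_eq] at h0
    have h1 := ih _ (Nat.mod_lt _ hQ) h0
    intro h2
    apply h1
    rw [← h2]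
    have h3 : (e >>> (4 * l)) &&& 15 = e / 16 ^ l % 16 := by
      rw [Nat.shiftRight_eq_div_pow, pow_mul]
      exact Nat.and_two_pow_sub_one_eq_mod _ 4
    rw [h3]
    have h4 : e % 16 ^ (l + 1) = e % 16 ^ l + 16 ^ l * (e / 16 ^ l % 16) := Nat.mod_pow_succ
    rw [h4]
    change Nat.ModEq Q _ _
    calc (r ^ 16 * 2 ^ (e / 16 ^ l % 16) % Q) ^ 16 ^ l * 2 ^ (e % 16 ^ l)
        ≡ (r ^ 16 * 2 ^ (e / 16 ^ l % 16)) ^ 16 ^ l * 2 ^ (e % 16 ^ l) [MOD Q] :=
          Nat.ModEq.mul_right _ ((Nat.mod_modEq _ _).pow _)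
      _ = r ^ 16 ^ (l + 1) * 2 ^ (e % 16 ^ l + 16 ^ l * (e / 16 ^ l % 16)) := by
          rw [mul_pow, ← pow_mul, ← pow_mul, pow_add, ← pow_succ' 16 l, mul_comm (e / 16 ^ l % 16)]
          ring

lemma qt3_spec (q : ℕ) (h : qt3 q (q + 1) = true) : ¬ (q + 1).Prime := by
  rw [qt3] at h
  obtain ⟨h0, h⟩ := rec_and h
  have h1 : 3 ≤ q + 1 := Nat.le_of_ble_eq_true h0
  have h2 := frm_spec (q + 1) q _ (by omega) 1 (by omega) h
  intro hp
  apply h2
  rw [one_pow, one_mul]
  have h3 : q < 16 ^ (Nat.succ (Nat.div (Nat.log2 q) 4)) := by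
    have h4 : q < 2 ^ (Nat.log2 q + 1) := Nat.lt_log2_self
    refine h4.trans_le ?_
    rw [show (16 : ℕ) = 2 ^ 4 by norm_num, ← pow_mul]
    apply Nat.pow_le_pow_right (by norm_num)
    change _ ≤ 4 * (Nat.log2 q / 4 + 1)
    omega
  rw [Nat.mod_eq_of_lt h3]
  have := Fact.mk hp
  have h5 : (2 : ZMod (q + 1)) ≠ 0 := by
    intro h6
    have h7 : ((2 : ℕ) : ZMod (q + 1)) = 0 := by exact_mod_cast h6
    rw [ZMod.natCast_eq_zero_iff] at h7
    have := Nat.le_of_dvd (by norm_num) h7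
    omega
  have h6 := ZMod.pow_card_sub_one_eq_one h5
  rw [Nat.add_sub_cancel] at h6
  have h7 : ((2 ^ q : ℕ) : ZMod (q + 1)) = ((1 : ℕ) : ZMod (q + 1)) := by
    push_cast
    exact h6
  rw [ZMod.natCast_eq_natCast_iff] at h7
  rw [h7, Nat.mod_eq_of_lt (by omega)]

lemma qt_spec (q : ℕ) (h : qt q = true) : ¬ (q + 1).Prime := by
  rw [qt, fo_eq, qt1, fo_eq, qt2] at h
  change (Bool.rec (motive := fun _ => Bool) (qt3 q (q + 1))
    (Bool.rec (motive := fun _ => Bool) true (qt3 q (q + 1)) (Nat.ble (q + 1) (Nat.gcd (q + 1) PR2)))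
    (Nat.ble 2 (Nat.gcd (q + 1) PR2)) : Bool) = true at h
  cases hc : Nat.ble 2 (Nat.gcd (q + 1) PR2) with
  | false =>
    rw [hc] at h
    exact qt3_spec q h
  | true =>
    rw [hc] at h
    cases hc2 : Nat.ble (q + 1) (Nat.gcd (q + 1) PR2) with
    | true =>
      rw [hc2] at h
      exact qt3_spec q h
    | false =>
      apply not_prime_of_gcd (q + 1) PR2 (Nat.le_of_ble_eq_true hc)
      intro h3
      rw [Nat.ble_eq.mpr h3] at hc2
      exact absurd hc2 (by decide)

lemma tst_spec (i q : ℕ) (h : tst i q = true) :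
    sp i = true ∨ ¬ ((6 * i - 1).Prime ∧ (6 * i + 1).Prime ∧ (q + 1).Prime) := by
  rw [tst] at h
  rcases rec_or h with h1 | h1
  · right
    intro h2
    exact comp_spec _ h1 h2.1
  · rw [tst2] at h1
    rcases rec_or h1 with h3 | h3
    · right
      intro h2
      exact comp_spec _ h3 h2.2.1
    · rw [tst3] at h3
      rcases rec_or h3 with h4 | h4
      · exact Or.inl h4
      · right
        intro h2
        exact qt_spec _ h4 h2.2.2

lemma BM_bit : ∀ t < 6, ∀ p < 20, BM.testBit (1360 * t + (1340 + p)) = true := by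
  decide +kernel

lemma leaf_spec (b i : ℕ) (hi : i < 44583) (h : leaf b i = true) :
    (∀ t < 6, b / (2 ^ 1360) ^ t % 2 ^ 1360 < 2 ^ 1340) ∧ tst i (b % 2 ^ 1360) = true := by
  rw [leaf, fo_eq, leaf2] at h
  have h1 : Nat.ble 44583 i = false := by
    rw [← Bool.not_eq_true, Nat.ble_eq]
    omega
  rw [h1] at h
  change fo b (leaf3 i) = true at h
  rw [fo_eq, leaf3] at h
  obtain ⟨h, h'⟩ := rec_and h
  refine ⟨?_, ?_⟩
  · intro t ht
    have h2 : b &&& BM = 0 := beq_true h
    apply Nat.lt_pow_two_of_testBit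
    intro p hp
    by_cases hp2 : p < 1360
    · rw [Nat.testBit_mod_two_pow, ← pow_mul, ← Nat.shiftRight_eq_div_pow, Nat.testBit_shiftRight]
      obtain ⟨s, rfl⟩ : ∃ s, p = 1340 + s := ⟨p - 1340, by omega⟩
      have h3 := BM_bit t ht s (by omega)
      have h4 := congrArg (fun z => Nat.testBit z (1360 * t + (1340 + s))) h2
      simp only [Nat.testBit_and, Nat.zero_testBit, h3, Bool.and_true] at h4
      rw [h4]
      simp
    · apply Nat.testBit_lt_two_pow
      exact (Nat.mod_lt _ (by positivity)).trans_le (Nat.pow_le_pow_right (by norm_num) (by omega))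
  · rw [land_mask] at h'
    exact h'

lemma mod_pow_div (B W M j : ℕ) (h : j < M) : B % W ^ M / W ^ j % W = B / W ^ j % W := by
  obtain ⟨s, rfl⟩ : ∃ s, M = j + (s + 1) := ⟨M - j - 1, by omega⟩
  rw [pow_add, Nat.mod_mul_right_div_self, Nat.mod_mod_of_dvd _ (dvd_pow_self W (by omega))]

lemma chk_spec (P : ℕ → ℕ → Bool) (w l : ℕ) : ∀ B i, B < (2 ^ w) ^ (2 ^ l) → chk P w l B i = true →
    ∀ j < 2 ^ l, P (B / (2 ^ w) ^ j % 2 ^ w) (i + j) = true := by
  induction l with
  | zero =>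
    intro B i hB h j hj
    rw [pow_zero, Nat.lt_one_iff] at hj
    subst hj
    rw [pow_zero, pow_one] at hB
    rw [pow_zero, Nat.div_one, Nat.mod_eq_of_lt hB]
    exact h
  | succ l ih =>
    intro B i hB h j hj
    have h0 : (Bool.rec (motive := fun _ => Bool) false (chk P w l (B >>> (w * 2 ^ l)) (i + 2 ^ l))
        (chk P w l (Nat.land B (mask (w * 2 ^ l))) i) : Bool) = true := h
    rw [land_mask, pow_mul, Nat.shiftRight_eq_div_pow, pow_mul] at h0
    replace h := rec_and h0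
    have hW : 0 < 2 ^ w := by positivity
    by_cases hj2 : j < 2 ^ l
    · have h1 := ih _ i (Nat.mod_lt _ (by positivity)) h.1 j hj2
      rw [mod_pow_div _ _ _ _ hj2] at h1
      exact h1
    · obtain ⟨s, rfl⟩ : ∃ s, j = 2 ^ l + s := ⟨j - 2 ^ l, by omega⟩
      have h2 : s < 2 ^ l := by
        rw [pow_succ] at hj
        omega
      have h3 : B / (2 ^ w) ^ 2 ^ l < (2 ^ w) ^ 2 ^ l := by
        rw [Nat.div_lt_iff_lt_mul (by positivity), ← pow_add, ← two_mul, ← pow_succ']
        exact hB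
      have h4 := ih _ (i + 2 ^ l) h3 h.2 s h2
      rw [Nat.div_div_eq_div_mul, ← pow_add, add_assoc] at h4
      exact h4

lemma part_spec (B j : ℕ) (h : part j B = true) (t : ℕ) (ht : t < 2 ^ 14) :
    leaf (B / (2 ^ 8160) ^ (j * 16384 + t) % 2 ^ 8160) (j * 16384 + t) = true := by
  rw [part, land_mask] at h
  have h0 : Nat.shiftRight B (Nat.mul j (Nat.mul 8160 16384)) = B / (2 ^ 8160) ^ (j * 16384) := by
    rw [show Nat.shiftRight B (Nat.mul j (Nat.mul 8160 16384)) = B >>> (j * (8160 * 16384)) from rfl,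
      Nat.shiftRight_eq_div_pow, ← pow_mul]
    congr 2
    ring
  rw [h0] at h
  have h1' : Nat.mul 8160 16384 = 8160 * 2 ^ 14 := by decide
  have h1 : (2 : ℕ) ^ (Nat.mul 8160 16384) = (2 ^ 8160) ^ (2 ^ 14) := by
    rw [h1', pow_mul]
  rw [h1] at h
  have h2 := chk_spec leaf 8160 14 _ _ (Nat.mod_lt _ (by positivity)) h t ht
  rw [mod_pow_div _ _ _ _ ht, Nat.div_div_eq_div_mul, ← pow_add] at h2
  exact h2

end Pool.Agent.X40.SQ
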