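import Pool.Agent.X40.SQ.Tot
import Pool.Agent.X40.SQ.Sound

/-!
# Soundness of the totient computation
-/

set_option autoImplicit false

namespace Pool.Agent.X40.SQ

lemma prl_prime : ∀ p ∈ prl, p.Prime := by decide +kernel

lemma dvd_PR_aux : ∀ p < 521, PR % p = 0 ∨ p < 2 ∨ ∃ d < 24, 1 < d ∧ d < p ∧ p % d = 0 := by
  decide +kernel

lemma dvd_PR (p : ℕ) (hp : p < 521) (h : p.Prime) : p ∣ PR := by
  rcases dvd_PR_aux p hp with h1 | h1 | ⟨d, _, h1, h2, h3⟩
  · exact Nat.dvd_of_mod_eq_zero h1
  · have := h.two_le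
    omega
  · rcases (Nat.dvd_prime h).mp (Nat.dvd_of_mod_eq_zero h3) with h4 | h4 <;> omega

lemma prime_of_gcd (m : ℕ) (h : Nat.gcd m PR = 1) (hm : m < 271441) (h1 : m ≠ 1) : m.Prime := by
  have h0 : m ≠ 0 := by
    rintro rfl
    rw [Nat.gcd_zero_left] at h
    exact absurd h (by decide +kernel)
  by_contra hp
  have h2 := Nat.minFac_sq_le_self (Nat.pos_of_ne_zero h0) hp
  have h3 : m.minFac < 521 := by nlinarith
  have h4 := dvd_PR _ h3 (Nat.minFac_prime h1)
  have h5 := Nat.dvd_gcd (Nat.minFac_dvd m) h4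
  rw [h] at h5
  exact (Nat.minFac_prime h1).one_lt.ne' (Nat.dvd_one.mp h5)

lemma nxt_spec (k : ℕ → Bool) (rest : ℕ → ℕ → Bool) (m acc : ℕ)
    (hr : rest m acc = true → k (acc * Nat.totient m) = true) (h : nxt k rest m acc = true) :
    k (acc * Nat.totient m) = true := by
  unfold nxt at h
  cases hc : Nat.beq (Nat.gcd m PR) 1 with
  | false =>
    rw [hc] at h
    exact hr h
  | true =>
    rw [hc] at h
    have hg : Nat.gcd m PR = 1 := beq_true hc
    cases hc2 : Nat.blt m 271441 with
    | false =>
      rw [hc2] at h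
      exact absurd h Bool.false_ne_true
    | true =>
      rw [hc2] at h
      have hlt := blt_true hc2
      cases hc3 : Nat.beq m 1 with
      | true =>
        rw [hc3] at h
        have h1 : m = 1 := beq_true hc3
        rw [h1, Nat.totient_one, mul_one]
        exact h
      | false =>
        rw [hc3] at h
        have h1 : m ≠ 1 := by
          rintro rfl
          exact absurd hc3 (by decide)
        have hp := prime_of_gcd m hg hlt h1
        rw [Nat.totient_prime hp]
        have h2 : fo (acc * (m - 1)) k = true := h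
        rw [fo_eq] at h2
        exact h2

lemma hit_spec (k : ℕ → Bool) (p : ℕ) (hp : p.Prime) (rest : ℕ → ℕ → Bool)
    (hr : ∀ m acc, rest m acc = true → k (acc * Nat.totient m) = true) (m acc : ℕ)
    (hpm : p ∣ m) (h : hit k p rest m acc = true) : k (acc * Nat.totient m) = true := by
  have h0 : fo (Nat.gcd m (p ^ 18)) (fun g => fo (m / g) fun m' =>
    Bool.rec (motive := fun _ => Bool) (fo (acc * (g - g / p)) (nxt k rest m'))
    false (Nat.beq (m' % p) 0)) = true := h
  rw [fo_eq, fo_eq] at h0
  generalize hg : Nat.gcd m (p ^ 18) = g at h0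
  generalize hm' : m / g = m' at h0
  have hgm : g ∣ m := hg ▸ Nat.gcd_dvd_left _ _
  have hgp : g ∣ p ^ 18 := hg ▸ Nat.gcd_dvd_right _ _
  have hpg : p ∣ g := hg ▸ Nat.dvd_gcd hpm (dvd_pow_self p (by norm_num))
  have hm : g * m' = m := by
    rw [← hm']
    exact Nat.mul_div_cancel' hgm
  cases hc : Nat.beq (m' % p) 0 with
  | true =>
    rw [hc] at h0
    exact absurd h0 Bool.false_ne_true
  | false =>
    rw [hc] at h0
    have h1 : fo (acc * (g - g / p)) (nxt k rest m') = true := h0
    rw [fo_eq] at h1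
    have h2 : ¬ p ∣ m' := by
      intro h3
      rw [Nat.mod_eq_zero_of_dvd h3] at hc
      exact absurd hc (by decide)
    obtain ⟨v, _, rfl⟩ := (Nat.dvd_prime_pow hp).mp hgp
    have hv : v ≠ 0 := by
      rintro rfl
      rw [pow_zero, Nat.dvd_one] at hpg
      exact hp.one_lt.ne' hpg
    obtain ⟨w, rfl⟩ := Nat.exists_eq_succ_of_ne_zero hv
    have h3 : p ^ (w + 1) - p ^ (w + 1) / p = Nat.totient (p ^ (w + 1)) := by
      rw [Nat.totient_prime_pow_succ hp, pow_succ, Nat.mul_div_cancel _ hp.pos, Nat.mul_sub, mul_one]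
    have h4 : Nat.Coprime (p ^ (w + 1)) m' :=
      Nat.Coprime.pow_left _ ((Nat.Prime.coprime_iff_not_dvd hp).mpr h2)
    have h5 := nxt_spec k rest m' _ (hr m' _) h1
    rw [Nat.succ_eq_add_one] at h5 hm
    rw [h3, mul_assoc, ← Nat.totient_mul h4, hm] at h5
    exact h5

lemma tdl_spec (k : ℕ → Bool) (rest : ℕ → ℕ → Bool)
    (hr : ∀ m acc, rest m acc = true → k (acc * Nat.totient m) = true)
    (l : List ℕ) (hl : ∀ p ∈ l, p.Prime) : ∀ m acc,
    tdl k rest l m acc = true → k (acc * Nat.totient m) = true := by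
  induction l with
  | nil =>
    intro m acc h
    exact hr m acc h
  | cons p l ih =>
    intro m acc h
    have h0 : (Bool.rec (motive := fun _ => Bool) (tdl k rest l m acc) (hit k p (tdl k rest l) m acc)
      (Nat.beq (m % p) 0) : Bool) = true := h
    have ih' := ih (fun p hp => hl p (List.mem_cons_of_mem _ hp))
    cases hc : Nat.beq (m % p) 0 with
    | false =>
      rw [hc] at h0
      exact ih' m acc h0
    | true =>
      rw [hc] at h0
      exact hit_spec k p (hl p (by simp)) (tdl k rest l) ih' m acc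
        (Nat.dvd_of_mod_eq_zero (beq_true hc)) h0

lemma grl_prime : ∀ G ∈ grl, ∀ p ∈ G.2, p.Prime := by decide +kernel

lemma tdc_spec (k : ℕ → Bool) (l : List (ℕ × List ℕ)) (hl : ∀ G ∈ l, ∀ p ∈ G.2, p.Prime) :
    ∀ m acc, tdc k l m acc = true → k (acc * Nat.totient m) = true := by
  induction l with
  | nil =>
    intro m acc h
    exact absurd h Bool.false_ne_true
  | cons G l ih =>
    intro m acc h
    have h0 : (Bool.rec (motive := fun _ => Bool) (tdl k (tdc k l) G.2 m acc) (tdc k l m acc)
      (Nat.beq (Nat.gcd m G.1) 1) : Bool) = true := h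
    have ih' := ih (fun p hp => hl p (List.mem_cons_of_mem _ hp))
    cases hc : Nat.beq (Nat.gcd m G.1) 1 with
    | true =>
      rw [hc] at h0
      exact ih' m acc h0
    | false =>
      rw [hc] at h0
      exact tdl_spec k (tdc k l) ih' G.2 (hl G (by simp)) m acc h0

lemma totc_spec (m : ℕ) (k : ℕ → Bool) (h : totc m k = true) : k (Nat.totient m) = true := by
  have h1 := nxt_spec k (tdc k grl) m 1 (tdc_spec k grl grl_prime m 1) h
  rw [one_mul] at h1
  exact h1

lemma nb_spec (v : ℕ) (h : nb v = true) : v ≠ 16 ∧ ∀ i, v = 24 * i → sp i = false := by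
  unfold nb at h
  cases hc : Nat.beq v 16 with
  | true =>
    rw [hc] at h
    exact absurd h Bool.false_ne_true
  | false =>
    rw [hc] at h
    refine ⟨?_, ?_⟩
    · rintro rfl
      exact absurd hc (by decide)
    · rintro i rfl
      have h1 : Nat.beq (Nat.mod (24 * i) 24) 0 = true := by
        change Nat.beq ((24 * i) % 24) 0 = true
        rw [Nat.mul_mod_right]
        rfl
      rw [h1] at h
      have h2 : Nat.div (24 * i) 24 = i := Nat.mul_div_cancel_left i (by norm_num)
      rw [h2] at h
      cases hs : sp i with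
      | false => rfl
      | true =>
        rw [hs] at h
        exact absurd h Bool.false_ne_true

lemma prt3_spec (a b : ℕ) (h : prt3 a b = true) : nb (4 * a + b) = true ∧ nb (4 * b + a) = true := by
  have h0 : (Bool.rec (motive := fun _ => Bool) false (nb (4 * b + a)) (nb (4 * a + b)) : Bool)
    = true := h
  cases hc : nb (4 * a + b) with
  | false =>
    rw [hc] at h0
    exact absurd h0 Bool.false_ne_true
  | true =>
    rw [hc] at h0
    exact ⟨rfl, h0⟩

lemma prt_spec (n k : ℕ) (hk : k ≠ 0) (hkn : 2 * k ≤ n) (h : prt n k = true) :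
    nb (4 * Nat.totient k + Nat.totient (n - k)) = true ∧
    nb (4 * Nat.totient (n - k) + Nat.totient k) = true := by
  rw [prt, fo_eq] at h
  unfold prt1 at h
  have h1 : Nat.beq k 0 = false := by
    cases hc : Nat.beq k 0 with
    | true => exact absurd (beq_true hc) hk
    | false => rfl
  have h2 : Nat.ble (Nat.mul 2 k) n = true := Nat.ble_eq.mpr hkn
  rw [h1, h2] at h
  have h3 := totc_spec k _ h
  have h4 := totc_spec (n - k) _ h3
  exact prt3_spec _ _ h4

lemma rg_spec (P : ℕ → Bool) (l : ℕ) : ∀ k, rg P l k = true → ∀ j < 2 ^ l, P (k + j) = true := by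
  induction l with
  | zero =>
    intro k h j hj
    rw [pow_zero, Nat.lt_one_iff] at hj
    subst hj
    exact h
  | succ l ih =>
    intro k h j hj
    have h0 : rg P l k = true ∧ rg P l (k + 2 ^ l) = true := by
      have h1 : (Bool.rec (motive := fun _ => Bool) false (rg P l (k + 2 ^ l)) (rg P l k) : Bool)
        = true := h
      cases hc : rg P l k with
      | false =>
        rw [hc] at h1
        exact absurd h1 Bool.false_ne_true
      | true =>
        rw [hc] at h1
        exact ⟨rfl, h1⟩
    by_cases hj2 : j < 2 ^ l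
    · exact ih k h0.1 j hj2
    · obtain ⟨s, rfl⟩ : ∃ s, j = 2 ^ l + s := ⟨j - 2 ^ l, by omega⟩
      have h2 : s < 2 ^ l := by
        rw [pow_succ] at hj
        omega
      have h3 := ih _ h0.2 s h2
      rw [add_assoc] at h3
      exact h3

end Pool.Agent.X40.SQ
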