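import Pool.Agent.X40.SQ.Table
import Pool.Agent.X40.SQ.TotSound
import Pool.Agent.X40.SQ.T0
import Pool.Agent.X40.SQ.T1
import Pool.Agent.X40.SQ.T2
import Pool.Agent.X40.SQ.T3
import Pool.Agent.X40.SQ.T4
import Pool.Agent.X40.SQ.T5

/-!
# No `k` works for `n = 267497`
-/

set_option autoImplicit false

namespace Pool.Agent.X40.SQ

lemma tt_all (c : ℕ) (hc : c < 66) : rg (prt 267497) 11 (Nat.mul c 2048) = true := by
  interval_cases c
  · exact tt_0
  · exact tt_1
  · exact tt_2
  · exact tt_3
  · exact tt_4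
  · exact tt_5
  · exact tt_6
  · exact tt_7
  · exact tt_8
  · exact tt_9
  · exact tt_10
  · exact tt_11
  · exact tt_12
  · exact tt_13
  · exact tt_14
  · exact tt_15
  · exact tt_16
  · exact tt_17
  · exact tt_18
  · exact tt_19
  · exact tt_20
  · exact tt_21
  · exact tt_22
  · exact tt_23
  · exact tt_24
  · exact tt_25
  · exact tt_26
  · exact tt_27
  · exact tt_28
  · exact tt_29
  · exact tt_30
  · exact tt_31
  · exact tt_32
  · exact tt_33
  · exact tt_34
  · exact tt_35
  · exact tt_36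
  · exact tt_37
  · exact tt_38
  · exact tt_39
  · exact tt_40
  · exact tt_41
  · exact tt_42
  · exact tt_43
  · exact tt_44
  · exact tt_45
  · exact tt_46
  · exact tt_47
  · exact tt_48
  · exact tt_49
  · exact tt_50
  · exact tt_51
  · exact tt_52
  · exact tt_53
  · exact tt_54
  · exact tt_55
  · exact tt_56
  · exact tt_57
  · exact tt_58
  · exact tt_59
  · exact tt_60
  · exact tt_61
  · exact tt_62
  · exact tt_63
  · exact tt_64
  · exact tt_65

lemma prt_all (k : ℕ) (hk : 2 * k ≤ 267497) : prt 267497 k = true := by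
  have h1 := rg_spec _ _ _ (tt_all (k / 2048) (by omega)) (k % 2048) (Nat.mod_lt _ (by norm_num))
  have h2 : Nat.mul (k / 2048) 2048 + k % 2048 = k := by
    change k / 2048 * 2048 + k % 2048 = k
    omega
  rw [h2] at h1
  exact h1

lemma nb_all (k : ℕ) (h1 : 1 ≤ k) (h2 : k ≤ 267496) :
    nb (4 * Nat.totient k + Nat.totient (267497 - k)) = true := by
  by_cases hk : 2 * k ≤ 267497
  · exact (prt_spec 267497 k (by omega) hk (prt_all k hk)).1
  · have h3 := (prt_spec 267497 (267497 - k) (by omega) (by omega)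
      (prt_all (267497 - k) (by omega))).2
    rw [show 267497 - (267497 - k) = k by omega] at h3
    exact h3

lemma twin (m : ℕ) (h1 : (m - 1).Prime) (h2 : (m + 1).Prime) : m = 4 ∨ 6 ∣ m := by
  have h3 := h1.two_le
  have h4 : m % 2 = 0 := by
    by_contra h
    have h5 : 2 ∣ m - 1 := by omega
    have h6 : 2 ∣ m + 1 := by omega
    rcases (Nat.dvd_prime h1).mp h5 with h7 | h7
    · omega
    · rcases (Nat.dvd_prime h2).mp h6 with h8 | h8 <;> omega
  have h5 : m = 4 ∨ m % 3 = 0 := by
    by_contra h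
    push Not at h
    have h6 : m % 3 = 1 ∨ m % 3 = 2 := by omega
    rcases h6 with h6 | h6
    · have h7 : 3 ∣ m - 1 := by omega
      rcases (Nat.dvd_prime h1).mp h7 with h8 | h8 <;> omega
    · have h7 : 3 ∣ m + 1 := by omega
      rcases (Nat.dvd_prime h2).mp h7 with h8 | h8 <;> omega
  omega

theorem main (k : ℕ) (h1 : 1 ≤ k) (h2 : k ≤ 267496) :
    ¬ (4 ∣ Nat.totient (267497 - k) ∧
      (Nat.totient k + Nat.totient (267497 - k) / 4 - 1).Prime ∧
      (Nat.totient k + Nat.totient (267497 - k) / 4 + 1).Prime ∧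
      (q (Nat.totient k + Nat.totient (267497 - k) / 4) + 1).Prime) := by
  rintro ⟨h3, h4, h5, h6⟩
  have h7 := nb_spec _ (nb_all k h1 h2)
  have h8 := Nat.totient_le k
  have h9 := Nat.totient_le (267497 - k)
  generalize Nat.totient k = a at *
  generalize Nat.totient (267497 - k) = b at *
  obtain ⟨c, rfl⟩ := h3
  rw [Nat.mul_div_cancel_left c (by norm_num)] at h4 h5 h6
  rcases twin (a + c) h4 h5 with h10 | ⟨i, h10⟩
  · exact h7.1 (by omega)
  · have h11 := tst_spec i _ (tab i (by omega))
    rw [← h10] at h11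
    rcases h11 with h12 | h12
    · have h13 := h7.2 i (by omega)
      rw [h12] at h13
      exact absurd h13 (by decide)
    · exact h12 ⟨h4, h5, h6⟩

end Pool.Agent.X40.SQ
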