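import Mathlib

/-!
# The functional equation of the strict partition function
-/

set_option autoImplicit false

namespace Pool.Agent.X40.SQ

open PowerSeries PowerSeries.WithPiTopology Finset Filter

/-- the strict partition function -/
def q (n : ℕ) : ℕ := (Nat.Partition.distincts n).card

/-- the coefficients of Euler's series -/
noncomputable def e (n : ℕ) : ℤ := (pentagonalSeries ℤ).coeff n

lemma series_eq : (PowerSeries.mk fun n ↦ (q n : ℤ)) * pentagonalSeries ℤ
    = expand 2 two_ne_zero (pentagonalSeries ℤ) := by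
  have h1 : HasProd (fun i : ℕ ↦ ∑ j ∈ range 2, (X : ℤ⟦X⟧) ^ ((i + 1) * j))
      (PowerSeries.mk fun n ↦ (q n : ℤ)) := by
    have h := Nat.Partition.hasProd_powerSeriesMk_card_countRestricted ℤ (m := 2) (by norm_num)
    simp only [Nat.Partition.countRestricted_two] at h
    exact h
  have h2 := hasProd_one_sub_X_pow ℤ
  have h3 := h1.mul h2
  have h4 : HasProd (fun i : ℕ ↦ (1 : ℤ⟦X⟧) - X ^ (2 * (i + 1)))
      (expand 2 two_ne_zero (pentagonalSeries ℤ)) := by
    rw [HasProd, tendsto_iff_coeff_tendsto]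
    intro d
    apply tendsto_nhds_of_eventually_eq
    have h5 : ∀ s : Finset ℕ, ∏ i ∈ s, ((1 : ℤ⟦X⟧) - X ^ (2 * (i + 1)))
        = expand 2 two_ne_zero (∏ i ∈ s, ((1 : ℤ⟦X⟧) - X ^ (i + 1))) := by
      intro s
      rw [map_prod]
      refine Finset.prod_congr rfl fun i _ => ?_
      rw [map_sub, map_one, map_pow, expand_X, ← pow_mul]
    have h6 := coeff_prod_one_sub_X_pow_eventually_eq ℤ (d / 2)
    refine h6.mono fun s hs => ?_
    rw [h5, coeff_expand, coeff_expand]
    split_ifs with hd
    · exact hs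
    · rfl
  refine h3.unique ?_
  convert! h4 using 2 with i
  rw [Finset.sum_range_succ, Finset.sum_range_one]
  rw [mul_zero, pow_zero, mul_one, mul_comm 2 (i + 1), pow_mul]
  ring

lemma conv_eq (n : ℕ) : ∑ p ∈ antidiagonal n, (q p.1 : ℤ) * e p.2
    = if 2 ∣ n then e (n / 2) else 0 := by
  have h := congrArg (PowerSeries.coeff n) series_eq
  rw [PowerSeries.coeff_mul, coeff_expand] at h
  simpa [e] using h

end Pool.Agent.X40.SQ
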