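import Pool.Agent.X40.SQ.Series
import Pool.Agent.X40.SQ.Defs

/-!
# Values of Euler's series at powers of two
-/

set_option autoImplicit false

namespace Pool.Agent.X40.SQ

open Finset
open scoped PowerSeries.WithPiTopology

lemma e_zero : e 0 = 1 := by
  have h := PowerSeries.coeff_pentagonalSeries_pentagonal ℤ 0
  have h0 : pentagonal 0 = 0 := by simp [pentagonal_def]
  rw [h0] at h
  rw [e, h]
  simp

lemma abs_e_le (n : ℕ) : |e n| ≤ 1 := by
  by_cases h : n ∈ Set.range pentagonal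
  · obtain ⟨k, rfl⟩ := h
    rw [e, PowerSeries.coeff_pentagonalSeries_pentagonal]
    rcases Int.units_eq_one_or (Int.negOnePow k) with h | h <;> rw [h] <;> simp
  · rw [e, PowerSeries.coeff_pentagonalSeries_eq_zero ℤ h]
    simp

lemma al_eq (j : ℕ) : al j = j * (6 * j + 1) := rfl

lemma pent1 (j : ℕ) : pentagonal (-((2 * j : ℕ) : ℤ)) = al j := by
  have h := two_mul_natCast_pentagonal_neg ((2 * j : ℕ) : ℤ)
  rw [al_eq]
  push_cast at h ⊢
  zify
  linarith

lemma pent2 (j : ℕ) : pentagonal (((2 * j : ℕ) : ℤ) + 1) = al j + (4 * j + 1) := by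
  have h := two_mul_natCast_pentagonal (((2 * j : ℕ) : ℤ) + 1)
  rw [al_eq]
  push_cast at h ⊢
  zify
  linarith

lemma pent3 (j : ℕ) : pentagonal (-((2 * j + 1 : ℕ) : ℤ)) = al j + (6 * j + 2) := by
  have h := two_mul_natCast_pentagonal_neg ((2 * j + 1 : ℕ) : ℤ)
  rw [al_eq]
  push_cast at h ⊢
  zify
  linarith

lemma pent4 (j : ℕ) : pentagonal (((2 * j + 1 : ℕ) : ℤ) + 1) = al j + (10 * j + 5) := by
  have h := two_mul_natCast_pentagonal (((2 * j + 1 : ℕ) : ℤ) + 1)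
  rw [al_eq]
  push_cast at h ⊢
  zify
  linarith

lemma al_mono {a b : ℕ} (h : a ≤ b) : al a ≤ al b := by
  rw [al_eq, al_eq]
  gcongr

/-- the polynomial with the first terms of Euler's series -/
noncomputable def PJ (J : ℕ) : Polynomial ℤ :=
  ∑ j ∈ range J, Polynomial.X ^ al j * (1 - Polynomial.X ^ (4 * j + 1) - Polynomial.X ^ (6 * j + 2)
    + Polynomial.X ^ (10 * j + 5))

lemma sum_t (J : ℕ) : ∑ k ∈ range (2 * J), ((-1 : PowerSeries ℤ)) ^ k *
    (PowerSeries.X ^ pentagonal (-(k : ℤ)) - PowerSeries.X ^ pentagonal ((k : ℤ) + 1))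
    = (PJ J : PowerSeries ℤ) := by
  induction J with
  | zero => simp [PJ]
  | succ J ih =>
    rw [show 2 * (J + 1) = 2 * J + 1 + 1 by ring, sum_range_succ, sum_range_succ, ih, pent1, pent2,
      pent3, pent4, PJ, PJ, sum_range_succ, Polynomial.coe_add, add_assoc]
    congr 1
    rw [Even.neg_one_pow (by simp), Odd.neg_one_pow (by simp)]
    simp only [Polynomial.coe_mul, Polynomial.coe_add, Polynomial.coe_sub, Polynomial.coe_pow,
      Polynomial.coe_X, Polynomial.coe_one]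
    ring

lemma coeff_PJ (J i : ℕ) (h : i < al J) : (PJ J).coeff i = e i := by
  rw [← Polynomial.coeff_coe, ← sum_t, map_sum, e]
  have h1 := PowerSeries.WithPiTopology.hasSum_pow_pentagonal_sub_pentagonalSeries ℤ
  have h2 := h1.map (PowerSeries.coeff (R := ℤ) i) (PowerSeries.WithPiTopology.continuous_coeff ℤ i)
  have h3 : HasSum ((PowerSeries.coeff (R := ℤ) i) ∘ fun k : ℕ ↦ (-1) ^ k *
      (PowerSeries.X ^ pentagonal (-(k : ℤ)) - PowerSeries.X ^ pentagonal ((k : ℤ) + 1)))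
      (∑ k ∈ range (2 * J), ((PowerSeries.coeff (R := ℤ) i) ∘ fun k : ℕ ↦ (-1) ^ k *
      (PowerSeries.X ^ pentagonal (-(k : ℤ)) - PowerSeries.X ^ pentagonal ((k : ℤ) + 1))) k) := by
    apply hasSum_sum_of_ne_finset_zero
    intro k hk
    have hk' : 2 * J ≤ k := by simpa using hk
    have h4 : al J ≤ pentagonal (-(k : ℤ)) := by
      have h5 := two_mul_natCast_pentagonal_neg (k : ℤ)
      rw [al_eq]
      zify at hk' ⊢
      nlinarith
    have h6 : al J ≤ pentagonal ((k : ℤ) + 1) := by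
      have h5 := two_mul_natCast_pentagonal ((k : ℤ) + 1)
      rw [al_eq]
      zify at hk' ⊢
      nlinarith
    simp only [Function.comp_apply]
    rcases neg_one_pow_eq_or (PowerSeries ℤ) k with h7 | h7 <;>
    · rw [h7]
      simp [PowerSeries.coeff_X_pow, (show i ≠ pentagonal (-(k : ℤ)) by omega),
        (show i ≠ pentagonal ((k : ℤ) + 1) by omega)]
  have h4 := h3.unique h2
  exact h4

lemma dvd_eval (N J : ℕ) (h : N ≤ al J) (x : ℤ) :
    x ^ N ∣ (PJ J).eval x - ∑ i ∈ range N, e i * x ^ i := by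
  have h1 : (Polynomial.X : Polynomial ℤ) ^ N ∣ PJ J - ∑ i ∈ range N, Polynomial.C (e i) * Polynomial.X ^ i := by
    rw [Polynomial.X_pow_dvd_iff]
    intro d hd
    rw [Polynomial.coeff_sub, coeff_PJ J d (by omega), Polynomial.finsetSum_coeff]
    simp only [Polynomial.coeff_C_mul, Polynomial.coeff_X_pow]
    simp [hd]
  obtain ⟨r, hr⟩ := h1
  refine ⟨r.eval x, ?_⟩
  have h2 := congrArg (Polynomial.eval x) hr
  simpa [Polynomial.eval_finsetSum] using h2

/-- the `j`-th term -/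
def tj (x : ℤ) (j : ℕ) : ℤ := x ^ al j * (1 - x ^ (4 * j + 1) - x ^ (6 * j + 2) + x ^ (10 * j + 5))

lemma eval_PJ (J : ℕ) (x : ℤ) : (PJ J).eval x = ∑ j ∈ range J, tj x j := by
  simp [PJ, Polynomial.eval_finsetSum, tj]

lemma dvd_tj (x : ℤ) (N j : ℕ) (h : N ≤ al j) : x ^ N ∣ tj x j :=
  Dvd.dvd.mul_right (pow_dvd_pow _ h) _

lemma bs_spec (c N : ℕ) (hc : 0 < c) (L : ℕ) : ∀ j : ℕ,
    ((2 : ℤ) ^ c) ^ N ∣ ((2 : ℤ) ^ c) ^ al j * (bs c N L j : ℤ)
      - ∑ i ∈ range (2 ^ L), tj ((2 : ℤ) ^ c) (j + i) := by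
  have hx2 : 2 ≤ 2 ^ c := by
    calc 2 = 2 ^ 1 := rfl
      _ ≤ 2 ^ c := Nat.pow_le_pow_right (by norm_num) hc
  induction L with
  | zero =>
    intro j
    have h1 : bs c N 0 j = (1 + 2 ^ (c * (10 * j + 5))) - (2 ^ (c * (4 * j + 1)) + 2 ^ (c * (6 * j + 2))) := by
      simp only [bs, Nat.sub_eq, Nat.add_eq, Nat.mul_eq]
      rw [show ∀ a, Nat.shiftLeft 1 a = 1 <<< a from fun _ => rfl, Nat.one_shiftLeft]
      rw [show ∀ a, Nat.shiftLeft 1 a = 1 <<< a from fun _ => rfl, Nat.one_shiftLeft]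
      rw [show ∀ a, Nat.shiftLeft 1 a = 1 <<< a from fun _ => rfl, Nat.one_shiftLeft]
    have h2 : 2 ^ (c * (4 * j + 1)) + 2 ^ (c * (6 * j + 2)) ≤ 1 + 2 ^ (c * (10 * j + 5)) := by
      have h3 : 2 ^ (c * (4 * j + 1)) ≤ 2 ^ (c * (6 * j + 2)) :=
        Nat.pow_le_pow_right (by norm_num) (Nat.mul_le_mul_left _ (by omega))
      have h4 : 2 * 2 ^ (c * (6 * j + 2)) ≤ 2 ^ (c * (10 * j + 5)) := by
        rw [← pow_succ']
        apply Nat.pow_le_pow_right (by norm_num)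
        nlinarith
      omega
    rw [h1, Nat.cast_sub h2]
    simp only [pow_zero, range_one, sum_singleton, add_zero, tj]
    push_cast
    rw [pow_mul, pow_mul, pow_mul]
    refine ⟨0, ?_⟩
    ring
  | succ L ih =>
    intro j
    rw [pow_succ, mul_two, sum_range_add]
    have h0 : bs c N (L + 1) j = bif Nat.ble N (al (j + 2 ^ L)) then bs c N L j
      else bs c N L j + (bs c N L (j + 2 ^ L)) <<< (c * (al (j + 2 ^ L) - al j)) := rfl
    rw [h0]
    by_cases hN : N ≤ al (j + 2 ^ L)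
    · have h1 : Nat.ble N (al (j + 2 ^ L)) = true := Nat.ble_eq.mpr hN
      rw [h1, cond_true]
      have h2 : ((2 : ℤ) ^ c) ^ N ∣ ∑ x ∈ range (2 ^ L), tj (2 ^ c) (j + (2 ^ L + x)) := by
        apply dvd_sum
        intro i _
        apply dvd_tj
        exact hN.trans (al_mono (by omega))
      have h3 := dvd_sub (ih j) h2
      convert! h3 using 1
      ring
    · have h1 : Nat.ble N (al (j + 2 ^ L)) = false := by
        rw [← Bool.not_eq_true, Nat.ble_eq]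
        exact hN
      rw [h1, cond_false]
      have h3 := dvd_add (ih j) (ih (j + 2 ^ L))
      convert! h3 using 1
      rw [Nat.shiftLeft_eq]
      push_cast
      have h4 : ((2 : ℤ) ^ c) ^ al (j + 2 ^ L) = ((2 : ℤ) ^ c) ^ al j * 2 ^ (c * (al (j + 2 ^ L) - al j)) := by
        rw [pow_mul, ← pow_add, Nat.add_sub_cancel' (al_mono (Nat.le_add_right _ _))]
      rw [h4]
      have h5 : ∀ i, j + (2 ^ L + i) = j + 2 ^ L + i := fun i => by ring
      simp only [h5]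
      ring

lemma mask_eq (n : ℕ) : mask n = 2 ^ n - 1 := by
  rw [mask, show Nat.shiftLeft 1 n = 1 <<< n from rfl, Nat.one_shiftLeft]
  rfl

lemma land_mask (a n : ℕ) : Nat.land a (mask n) = a % 2 ^ n := by
  rw [mask_eq]
  exact Nat.and_two_pow_sub_one_eq_mod a n

lemma EV_spec (c N L : ℕ) (hc : 0 < c) (h : N ≤ al (2 ^ L)) :
    ((2 : ℤ) ^ c) ^ N ∣ (EV c N L : ℤ) - ∑ i ∈ range N, e i * ((2 : ℤ) ^ c) ^ i := by
  rw [EV, land_mask]
  have h1 := bs_spec c N hc L 0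
  have h2 := dvd_eval N (2 ^ L) h ((2 : ℤ) ^ c)
  rw [eval_PJ] at h2
  simp only [zero_add, show al 0 = 0 from rfl, pow_zero, one_mul] at h1
  have h3 : ((2 : ℤ) ^ c) ^ N ∣ ((bs c N L 0 % 2 ^ (Nat.mul c N) : ℕ) : ℤ) - (bs c N L 0 : ℤ) := by
    rw [← pow_mul, show Nat.mul c N = c * N from rfl]
    have h4 := Nat.mod_add_div (bs c N L 0) (2 ^ (c * N))
    refine ⟨-((bs c N L 0 / 2 ^ (c * N) : ℕ) : ℤ), ?_⟩
    have h5 : ((bs c N L 0 % 2 ^ (c * N) : ℕ) : ℤ) + (2 ^ (c * N) * (bs c N L 0 / 2 ^ (c * N)) : ℕ) = (bs c N L 0 : ℤ) := by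
      exact_mod_cast h4
    push_cast at h5 ⊢
    linarith
  have h6 := dvd_add h3 (dvd_add h1 h2)
  convert! h6 using 1
  ring

end Pool.Agent.X40.SQ
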