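import Pool.Agent.X40.SQ.Leaf

/-!
# Kernel check of the table of strict partition numbers
-/

set_option autoImplicit false

namespace Pool.Agent.X40.SQ

set_option maxRecDepth 10000 in
theorem whole_true : fo BN (whole EN RN) = true := by decide +kernel

end Pool.Agent.X40.SQ
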