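import Pool.Agent.X40.SQ.Sound
import Pool.Agent.X40.SQ.Whole

/-!
# The verified table of strict partition numbers
-/

set_option autoImplicit false

namespace Pool.Agent.X40.SQ

open Finset

lemma id_gen (c c' N M L : ℕ) (hc : 0 < c) (hc' : c' = c * 2) (hN : N = 2 * M) (B E R : ℕ)
    (hE : E = EV c N L) (hR : R = EV c' M L)
    (hh : idc c N B E R = true)
    (hL : N ≤ al (2 ^ L)) :
    (((2 ^ c : ℕ) : ℤ)) ^ N ∣ (B : ℤ) * (∑ i ∈ range N, e i * ((2 ^ c : ℕ) : ℤ) ^ i)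
      - ∑ i ∈ range N, r i * ((2 ^ c : ℕ) : ℤ) ^ i := by
  have h : (B * E) % 2 ^ (c * N) = R := by
    rw [idc, land_mask] at hh
    exact beq_true hh
  have h1 := EV_spec c N L hc hL
  have h2 := EV_spec c' M L (by omega) (by omega)
  have h3 : ((2 : ℤ) ^ c) ^ N ∣ (B * E : ℤ) - R := by
    have h4 := Nat.mod_add_div (B * E) (2 ^ (c * N))
    refine ⟨((B * E / 2 ^ (c * N) : ℕ) : ℤ), ?_⟩
    have h5 : ((B * E % 2 ^ (c * N) : ℕ) : ℤ) + (2 ^ (c * N) * (B * E / 2 ^ (c * N)) : ℕ) = ((B * E : ℕ) : ℤ) := by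
      exact_mod_cast h4
    rw [h] at h5
    push_cast at h5 ⊢
    rw [← pow_mul]
    linarith
  have h6 : ((2 : ℤ) ^ c) ^ N ∣ (R : ℤ) - ∑ i ∈ range N, r i * ((2 : ℤ) ^ c) ^ i := by
    rw [hN, sum_r, hR]
    rw [pow_mul ((2 : ℤ) ^ c) 2 M, ← pow_mul 2 c 2, ← hc']
    exact h2
  rw [← hE] at h1
  push_cast
  have h7 := dvd_sub (dvd_add h3 h6) (h1.mul_left (B : ℤ))
  convert! h7 using 1
  ring

lemma digit_gen (x B i t : ℕ) (ht : t < 6) :
    B / (x ^ 6) ^ i % x ^ 6 / x ^ t % x = B / x ^ (6 * i + t) % x := by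
  rw [mod_pow_div _ _ _ _ ht, Nat.div_div_eq_div_mul, ← pow_mul, ← pow_add]

lemma whole_gen (E R B : ℕ) (h : whole E R B = true) : idc 1360 267498 B E R = true ∧
    part 0 B = true ∧ part 1 B = true ∧ part 2 B = true := by
  rw [whole] at h
  obtain ⟨h1, h2⟩ := rec_and h
  obtain ⟨h3, h4⟩ := rec_and h2
  obtain ⟨h5, h6⟩ := rec_and h4
  exact ⟨h1, h3, h5, h6⟩

lemma whole_spec : idc 1360 267498 BN EN RN = true ∧ part 0 BN = true ∧ part 1 BN = true ∧
    part 2 BN = true :=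
  whole_gen EN RN BN ((fo_eq BN (whole EN RN)).symm.trans whole_true)

lemma part_all (j : ℕ) (hj : j < 3) : part j BN = true := by
  interval_cases j
  · exact whole_spec.2.1
  · exact whole_spec.2.2.1
  · exact whole_spec.2.2.2

lemma leaf_all (i : ℕ) (hi : i < 44583) : leaf (BN / (2 ^ 8160) ^ i % 2 ^ 8160) i = true := by
  have h1 := part_spec BN (i / 16384) (part_all _ (by omega)) (i % 16384) (Nat.mod_lt _ (by norm_num))
  have he : i / 16384 * 16384 + i % 16384 = i := by omega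
  rw [he] at h1
  exact h1

lemma leaf_gen (x W B N I : ℕ) (b : ℕ) (hW : W = x ^ 6) (hN : N = 6 * I)
    (h : ∀ i < I, ∀ t < 6, (B / W ^ i % W) / x ^ t % x < b) : ∀ n < N, B / x ^ n % x ≤ b := by
  intro n hn
  have h1 := h (n / 6) (by omega) (n % 6) (Nat.mod_lt _ (by norm_num))
  rw [hW, digit_gen _ _ _ _ (Nat.mod_lt _ (by norm_num)), Nat.div_add_mod] at h1
  exact h1.le

theorem qdig : ∀ n < 267498, q n = BN / (2 ^ 1360) ^ n % 2 ^ 1360 := by
  refine digits_eq (2 ^ 1360) 267498 BN (2 ^ 1340) (by norm_num) (by decide +kernel)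
    ?_ ?_
  · have h1 := whole_spec.1
    exact id_gen 1360 2720 267498 133749 8 (by norm_num) (by norm_num) (by norm_num) BN EN RN
      (Eq.refl _) (Eq.refl _) h1 (by decide)
  · refine leaf_gen (2 ^ 1360) (2 ^ 8160) BN 267498 44583 (2 ^ 1340) (by decide +kernel)
      (by norm_num) ?_
    intro i hi
    exact (leaf_spec _ i hi (leaf_all i hi)).1

theorem tab (i : ℕ) (hi : i < 44583) : tst i (q (6 * i)) = true := by
  have h1 := (leaf_spec _ i hi (leaf_all i hi)).2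
  have h2 : BN / (2 ^ 8160) ^ i % 2 ^ 8160 % 2 ^ 1360 = BN / (2 ^ 1360) ^ (6 * i) % 2 ^ 1360 := by
    have h3 := digit_gen (2 ^ 1360) BN i 0 (by norm_num)
    rw [pow_zero, Nat.div_one, add_zero] at h3
    have h4 : (2 : ℕ) ^ 8160 = (2 ^ 1360) ^ 6 := by decide +kernel
    rw [h4]
    exact h3
  rw [h2, ← qdig (6 * i) (by omega)] at h1
  exact h1

end Pool.Agent.X40.SQ
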