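import Pool.Agent.X40.SQ.Leaf

/-!
# Kernel computation of totients
-/

set_option autoImplicit false

namespace Pool.Agent.X40.SQ

/-- the end of the computation of a totient: `acc * φ m` is passed to the continuation when `m` has
no prime factor below 521, otherwise `rest m acc` -/
def nxt (k : ℕ → Bool) (rest : ℕ → ℕ → Bool) (m acc : ℕ) : Bool :=
  Bool.rec (motive := fun _ => Bool) (rest m acc)
    (Bool.rec (motive := fun _ => Bool) false
      (Bool.rec (motive := fun _ => Bool) (fo (Nat.mul acc (Nat.sub m 1)) k) (k acc) (Nat.beq m 1))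
      (Nat.blt m 271441))
    (Nat.beq (Nat.gcd m PR) 1)

/-- strip the prime `p` from `m` -/
def hit (k : ℕ → Bool) (p : ℕ) (rest : ℕ → ℕ → Bool) (m acc : ℕ) : Bool :=
  fo (Nat.gcd m (Nat.pow p 18)) fun g =>
  fo (Nat.div m g) fun m' =>
  Bool.rec (motive := fun _ => Bool) (fo (Nat.mul acc (Nat.sub g (Nat.div g p))) (nxt k rest m'))
    false (Nat.beq (Nat.mod m' p) 0)

/-- trial division by the primes of the list -/
def tdl (k : ℕ → Bool) (rest : ℕ → ℕ → Bool) (l : List ℕ) : ℕ → ℕ → Bool :=
  List.rec (motive := fun _ => ℕ → ℕ → Bool) rest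
    (fun p _ ih m acc => Bool.rec (motive := fun _ => Bool) (ih m acc) (hit k p ih m acc)
      (Nat.beq (Nat.mod m p) 0)) l

/-- the groups of primes, each with its product -/
def grl : List (ℕ × List ℕ) := [(6, [2, 3]),
  (5005, [5, 7, 11, 13]),
  (247110827, [17, 19, 23, 29, 31, 37]),
  (5488629279099587, [41, 43, 47, 53, 59, 61, 67, 71, 73]),
  (776093850365240417, [79, 83, 89, 97, 101, 103, 107, 109, 113]),
  (30463326675327195973, [127, 131, 137, 139, 149, 151, 157, 163, 167]),
  (381131642210355736459, [173, 179, 181, 191, 193, 197, 199, 211, 223]),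
  (3183809522811803785169, [227, 229, 233, 239, 241, 251, 257, 263, 269]),
  (16569591437412356301421, [271, 277, 281, 283, 293, 307, 311, 313, 317]),
  (88816991126218293876923, [331, 337, 347, 349, 353, 359, 367, 373, 379]),
  (319350682024979704229927, [383, 389, 397, 401, 409, 419, 421, 431, 433]),
  (927884797195631633052293, [439, 443, 449, 457, 461, 463, 467, 479, 487]),
  (62728919243, [491, 499, 503, 509])]

/-- trial division by groups of primes -/
def tdc (k : ℕ → Bool) (l : List (ℕ × List ℕ)) : ℕ → ℕ → Bool :=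
  List.rec (motive := fun _ => ℕ → ℕ → Bool) (fun _ _ => false)
    (fun G _ ih m acc => Bool.rec (motive := fun _ => Bool) (tdl k ih G.2 m acc) (ih m acc)
      (Nat.beq (Nat.gcd m G.1) 1)) l

/-- `totc m k = true` implies `k (φ m) = true` -/
def totc (m : ℕ) (k : ℕ → Bool) : Bool := nxt k (tdc k grl) m 1

/-- `v` is not `16` and not `24 i` with `i` special -/
def nb (v : ℕ) : Bool :=
  Bool.rec (motive := fun _ => Bool)
    (Bool.rec (motive := fun _ => Bool) true
      (Bool.rec (motive := fun _ => Bool) true false (sp (Nat.div v 24))) (Nat.beq (Nat.mod v 24) 0))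
    false (Nat.beq v 16)

/-- third step of `prt` -/
def prt3 (a b : ℕ) : Bool :=
  Bool.rec (motive := fun _ => Bool) false (nb (Nat.add (Nat.mul 4 b) a))
    (nb (Nat.add (Nat.mul 4 a) b))

/-- second step of `prt` -/
def prt2 (n k a : ℕ) : Bool := totc (Nat.sub n k) (prt3 a)

/-- first step of `prt` -/
def prt1 (n k : ℕ) : Bool :=
  Bool.rec (motive := fun _ => Bool)
    (Bool.rec (motive := fun _ => Bool) true (totc k (prt2 n k)) (Nat.ble (Nat.mul 2 k) n))
    true (Nat.beq k 0)

/-- the test for the pair `k, n - k` -/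
def prt (n k : ℕ) : Bool := fo k (prt1 n)

/-- test a range of length `2 ^ l` -/
def rg (P : ℕ → Bool) (l : ℕ) : ℕ → Bool :=
  Nat.rec (motive := fun _ => ℕ → Bool) P
    (fun l ih k => Bool.rec (motive := fun _ => Bool) false (ih (Nat.add k (Nat.pow 2 l))) (ih k)) l

end Pool.Agent.X40.SQ
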